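import Mathlib

namespace Pool.Agent.Results.MP_e83c66_co.Disproof

open SimpleGraph

/-- Fixed clique property: every simplicial endomorphism maps some nonempty clique onto itself. -/
def FCP {V : Type} (G : SimpleGraph V) : Prop :=
  ∀ f : V → V, (∀ x y, G.Adj x y → f x = f y ∨ G.Adj (f x) (f y)) →
    ∃ C : Set V, C.Nonempty ∧ G.IsClique C ∧ f '' C = C

def ad (u v : Fin 9) : Bool :=
  ([480, 464, 456, 420, 354, 409, 151, 111, 63].getD u.val 0).testBit v.val

def G : SimpleGraph (Fin 9) where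
  Adj u v := ad u v = true
  symm := ⟨by decide⟩
  loopless := ⟨by decide⟩

instance : DecidableRel G.Adj := fun _ _ => inferInstanceAs (Decidable (_ = true))

def fixedB (asg : List (Fin 9 × Fin 9)) (x y : Fin 9) : Bool :=
  y == x || (ad x y && asg.any (fun p => p.1 == y &&
    (p.2 == x || (ad y p.2 && ad p.2 x && asg.any (fun q => q.1 == p.2 && q.2 == x)))))

def go (vs : List (Fin 9)) : List (Fin 9) → List (Fin 9 × Fin 9) → Bool
  | [], _ => false
  | x :: t, asg => vs.all (fun y =>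
      asg.any (fun p => ad x p.1 && y != p.2 && !ad y p.2) || fixedB asg x y ||
        go vs t ((x, y) :: asg))

def Concl (vs : List (Fin 9)) (f : Fin 9 → Fin 9) : Prop :=
  ∃ C : Set (Fin 9), (∀ x ∈ C, x ∈ vs) ∧ C.Nonempty ∧ G.IsClique C ∧ f '' C = C

theorem go_spec (vs : List (Fin 9)) (f : Fin 9 → Fin 9) (hm : ∀ x ∈ vs, f x ∈ vs)
    (hf : ∀ x ∈ vs, ∀ y ∈ vs, G.Adj x y → f x = f y ∨ G.Adj (f x) (f y)) :
    ∀ t asg, (∀ x ∈ t, x ∈ vs) → (∀ p ∈ asg, p.1 ∈ vs ∧ f p.1 = p.2) → go vs t asg = true →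
      Concl vs f
  | [], _, _, _, h => by simp [go] at h
  | x :: t, asg, ht, ha, h => by
    have hx : x ∈ vs := ht x (by simp)
    have h1 := List.all_eq_true.1 h (f x) (hm x hx)
    simp only [Bool.or_eq_true] at h1
    rcases h1 with (h1 | h1) | h1
    · obtain ⟨p, hp, h2⟩ := List.any_eq_true.1 h1
      simp only [Bool.and_eq_true, bne_iff_ne, Bool.not_eq_true'] at h2
      rcases hf x hx p.1 (ha p hp).1 h2.1.1 with e | e
      · exact absurd (e.trans (ha p hp).2) h2.1.2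
      · rw [(ha p hp).2] at e
        have : ad (f x) p.2 = true := e
        simp [h2.2] at this
    · simp only [fixedB, Bool.or_eq_true, Bool.and_eq_true, beq_iff_eq, List.any_eq_true] at h1
      rcases h1 with e | ⟨a1, p, hp, e1, e | ⟨⟨a2, a3⟩, q, hq, e2, e3⟩⟩
      · exact ⟨{x}, by simpa, by simp, by simp, by simp [e]⟩
      · have f1 : f (f x) = x := by rw [← e1, (ha p hp).2, e]
        refine ⟨{x, f x}, ?_, by simp, ?_, ?_⟩
        · rintro z (rfl | rfl)
          · exact hx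
          · exact hm x hx
        · exact isClique_pair.2 (fun _ => a1)
        · rw [Set.image_pair, f1, Set.pair_comm]
      · have f1 : f (f x) = p.2 := by rw [← e1, (ha p hp).2]
        have f2 : f p.2 = x := by rw [← e2, (ha q hq).2, e3]
        have b1 : G.Adj x (f x) := a1
        have b2 : G.Adj (f x) p.2 := a2
        have b3 : G.Adj p.2 x := a3
        refine ⟨{x, f x, p.2}, ?_, by simp, ?_, ?_⟩
        · rintro z (rfl | rfl | rfl)
          · exact hx
          · exact hm x hx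
          · rw [← e2]; exact (ha q hq).1
        · rintro z (rfl | rfl | rfl) w (rfl | rfl | rfl) c <;>
            first | exact absurd rfl c | assumption | (apply Adj.symm; assumption)
        · rw [Set.image_insert_eq, Set.image_pair, f1, f2]
          ext z; simp only [Set.mem_insert_iff, Set.mem_singleton_iff]; tauto
    · refine go_spec vs f hm hf t _ (fun z hz => ht z (by simp [hz])) ?_ h1
      intro p hp
      rcases List.mem_cons.1 hp with rfl | hp
      · exact ⟨hx, rfl⟩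
      · exact ha p hp

theorem sub (vs : List (Fin 9)) (S : Set (Fin 9)) (hS : ∀ x, x ∈ S ↔ x ∈ vs)
    (h : go vs vs [] = true) : FCP (G.induce S) := by
  classical
  intro f hf
  let g : Fin 9 → Fin 9 := fun x => if c : x ∈ S then (f ⟨x, c⟩).1 else x
  have hg : ∀ x : S, g x.1 = (f x).1 := fun x => by simp [g, x.2]
  obtain ⟨C, h1, ⟨a, ha⟩, h3, h4⟩ := go_spec vs g
    (fun x hx => by rw [hg ⟨x, (hS x).2 hx⟩]; exact (hS _).1 (f _).2)
    (fun x hx y hy c => by
      rw [hg ⟨x, (hS x).2 hx⟩, hg ⟨y, (hS y).2 hy⟩]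
      rcases hf ⟨x, (hS x).2 hx⟩ ⟨y, (hS y).2 hy⟩ c with e | e
      · exact Or.inl (congrArg _ e)
      · exact Or.inr e) vs [] (fun _ h => h) (by simp) h
  refine ⟨Subtype.val ⁻¹' C, ⟨⟨a, (hS a).2 (h1 a ha)⟩, ha⟩, ?_, ?_⟩
  · intro x hx y hy c
    exact h3 hx hy (fun e => c (Subtype.ext e))
  · ext z
    constructor
    · rintro ⟨x, hx, rfl⟩
      show (f x).1 ∈ C
      rw [← hg, ← h4]
      exact ⟨_, hx, rfl⟩
    · intro hz
      have : z.1 ∈ g '' C := by rw [h4]; exact hz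
      obtain ⟨x, hx, e⟩ := this
      exact ⟨⟨x, (hS x).2 (h1 x hx)⟩, hx, Subtype.ext (by rw [← hg]; exact e)⟩

theorem notG : ¬ FCP G := by
  intro h
  obtain ⟨C, ⟨a, ha⟩, h2, h3⟩ := h ![1, 5, 1, 1, 0, 6, 8, 4, 7] (by decide)
  have st : ∀ x ∈ C, ![1, 5, 1, 1, 0, 6, 8, 4, 7] x ∈ C := fun x hx => h3 ▸ ⟨x, hx, rfl⟩
  have key : ∀ a : Fin 9, let f : Fin 9 → Fin 9 := ![1, 5, 1, 1, 0, 6, 8, 4, 7]
      (a ≠ f a ∧ ¬ G.Adj a (f a)) ∨ (a ≠ f (f a) ∧ ¬ G.Adj a (f (f a))) ∨
        (a ≠ f (f (f a)) ∧ ¬ G.Adj a (f (f (f a)))) := by decide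
  rcases key a with ⟨c, d⟩ | ⟨c, d⟩ | ⟨c, d⟩
  · exact d (h2 ha (st _ ha) c)
  · exact d (h2 ha (st _ (st _ ha)) c)
  · exact d (h2 ha (st _ (st _ (st _ ha))) c)

theorem result : ¬ ∀ (V : Type) [Fintype V] (H : SimpleGraph V) (v : V),
    FCP (H.induce (H.neighborSet v)) → FCP (H.induce {w | w ≠ v}) → FCP H := by
  intro h
  refine notG (h (Fin 9) G 0 (sub [5, 6, 7, 8] _ ?_ (by decide +kernel))
    (sub [4, 5, 8, 1, 7, 3, 6, 2] _ ?_ (by decide +kernel)))
  · show ∀ x, G.Adj 0 x ↔ _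
    decide
  · show ∀ x : Fin 9, x ≠ 0 ↔ _
    decide

end Pool.Agent.Results.MP_e83c66_co.Disproof
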